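import Mathlib

/-!
# Shifted intersecting families split into `n` classes that are 2-intersecting
-/

set_option autoImplicit false

namespace Pool.Agent.W568.KK

open Finset

/-- a shifted intersecting family of subsets of `range n` -/
structure Sh (n : ℕ) (H : Finset (Finset ℕ)) : Prop where
  sub : ∀ x ∈ H, x ⊆ range n
  int : ∀ x ∈ H, ∀ y ∈ H, ¬ Disjoint x y
  shift : ∀ x ∈ H, ∀ i j, i < j → i ∉ x → j ∈ x → insert i (x.erase j) ∈ H

theorem exists_long {n : ℕ} {H : Finset (Finset ℕ)} (hH : Sh n H) {x : Finset ℕ} (hx : x ∈ H) :
    ∃ i, i ≤ n ∧ i < 2 * (x ∩ range i).card := by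
  by_contra hcon
  push Not at hcon
  have key : ∀ t, t ≤ n → ∃ M : Finset ℕ, M ⊆ range t ∧ Disjoint M x ∧
      M.card = (x ∩ range t).card ∧ (x.filter (fun k => t ≤ k)) ∪ M ∈ H := by
    intro t
    induction t with
    | zero =>
      intro _
      refine ⟨∅, empty_subset _, disjoint_empty_left _, by simp, ?_⟩
      have : x.filter (fun k => 0 ≤ k) = x := filter_true_of_mem (fun _ _ => Nat.zero_le _)
      rw [this, union_empty]
      exact hx
    | succ t ih =>
      intro ht
      obtain ⟨M, hM1, hM2, hM3, hM4⟩ := ih (by omega)
      by_cases hxt : t ∈ x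
      · have e1 : (x ∩ range (t + 1)).card = (x ∩ range t).card + 1 := by
          rw [range_add_one, inter_insert_of_mem hxt, card_insert_of_notMem]
          intro h
          have := mem_range.1 (mem_inter.1 h).2
          omega
        have e2 := hcon (t + 1) ht
        have e3 : (range t \ (x ∪ M)).Nonempty := by
          rw [← card_pos]
          have h1 : (range t ∩ (x ∪ M)).card ≤ (x ∩ range t).card + M.card := by
            have : range t ∩ (x ∪ M) ⊆ (x ∩ range t) ∪ M := by
              intro k hk
              simp only [mem_inter, mem_union] at hk ⊢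
              tauto
            exact (card_le_card this).trans (card_union_le _ _)
          have h2 := card_sdiff_add_card_inter (range t) (x ∪ M)
          rw [card_range] at h2
          omega
        obtain ⟨y, hy⟩ := e3
        have hyt := mem_range.1 (mem_sdiff.1 hy).1
        have hyx : y ∉ x := fun h => (mem_sdiff.1 hy).2 (mem_union_left _ h)
        have hyM : y ∉ M := fun h => (mem_sdiff.1 hy).2 (mem_union_right _ h)
        have htM : t ∉ M := fun h => by have := mem_range.1 (hM1 h); omega
        refine ⟨insert y M, ?_, ?_, ?_, ?_⟩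
        · intro k hk
          rcases mem_insert.1 hk with rfl | hk
          · exact mem_range.2 (by omega)
          · have := mem_range.1 (hM1 hk)
            exact mem_range.2 (by omega)
        · rw [disjoint_insert_left]
          exact ⟨hyx, hM2⟩
        · rw [card_insert_of_notMem hyM, hM3, e1]
        · have h1 := hH.shift _ hM4 y t hyt (by
            rw [mem_union, mem_filter]
            push Not
            exact ⟨fun h => absurd h hyx, hyM⟩) (by
            rw [mem_union, mem_filter]
            exact Or.inl ⟨hxt, le_refl _⟩)
          have h2 : insert y ((x.filter (fun k => t ≤ k) ∪ M).erase t) =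
              x.filter (fun k => t + 1 ≤ k) ∪ insert y M := by
            ext k
            simp only [mem_insert, mem_erase, mem_union, mem_filter]
            by_cases hk : k = t
            · subst hk
              have hky : k ≠ y := fun h => hyx (h ▸ hxt)
              simp [hky, htM]
            · have : t ≤ k ↔ t + 1 ≤ k := by omega
              rw [this]
              tauto
          rw [h2] at h1
          exact h1
      · refine ⟨M, hM1.trans (range_subset_range.2 (by omega)), hM2, ?_, ?_⟩
        · rw [hM3, range_add_one, inter_insert_of_notMem hxt]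
        · have : x.filter (fun k => t + 1 ≤ k) = x.filter (fun k => t ≤ k) := by
            apply filter_congr
            intro k hk
            have : k ≠ t := fun h => hxt (h ▸ hk)
            omega
          rw [this]
          exact hM4
  obtain ⟨M, hM1, hM2, hM3, hM4⟩ := key n le_rfl
  have h1 : x.filter (fun k => n ≤ k) = ∅ := by
    rw [filter_eq_empty_iff]
    intro k hk
    have := mem_range.1 (hH.sub x hx hk)
    omega
  rw [h1, empty_union] at hM4
  exact hH.int M hM4 x hx hM2

theorem pivot {n : ℕ} {H : Finset (Finset ℕ)} (hH : Sh n H) {x : Finset ℕ} (hx : x ∈ H) :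
    ∃ c, 2 * c < n ∧ 2 * c ∈ x ∧ c ≤ (x ∩ range (2 * c)).card := by
  classical
  have hex := exists_long hH hx
  set i := Nat.find hex with hi
  have h1 := Nat.find_spec hex
  rw [← hi] at h1
  obtain ⟨h1, h2⟩ := h1
  have hi0 : i ≠ 0 := by
    intro h
    rw [h] at h2
    simp at h2
  obtain ⟨j, hj⟩ : ∃ j, i = j + 1 := ⟨i - 1, by omega⟩
  have h3 : ¬ (j ≤ n ∧ j < 2 * (x ∩ range j).card) := Nat.find_min hex (by omega)
  have h4 : 2 * (x ∩ range j).card ≤ j := by
    by_contra h
    exact h3 ⟨by omega, by omega⟩
  have hjx : j ∈ x := by
    by_contra h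
    rw [hj, range_add_one, inter_insert_of_notMem h] at h2
    omega
  have h5 : (x ∩ range i).card = (x ∩ range j).card + 1 := by
    rw [hj, range_add_one, inter_insert_of_mem hjx, card_insert_of_notMem]
    intro h
    have := mem_range.1 (mem_inter.1 h).2
    omega
  rw [h5] at h2
  have h6 : j = 2 * (x ∩ range j).card := by omega
  refine ⟨(x ∩ range j).card, by omega, h6 ▸ hjx, ?_⟩
  rw [← h6]

theorem two_le {x y : Finset ℕ} {a b : ℕ} (hab : a ≠ b) (h1 : a ∈ x) (h2 : a ∈ y) (h3 : b ∈ x)
    (h4 : b ∈ y) : 2 ≤ (x ∩ y).card := by
  have : ({a, b} : Finset ℕ) ⊆ x ∩ y := by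
    intro k hk
    rcases mem_insert.1 hk with rfl | hk
    · exact mem_inter.2 ⟨h1, h2⟩
    · rw [mem_singleton.1 hk]; exact mem_inter.2 ⟨h3, h4⟩
  have h := card_le_card this
  rwa [card_pair hab] at h

theorem coloring {n : ℕ} (hn : 1 ≤ n) {H : Finset (Finset ℕ)} (hH : Sh n H) :
    ∃ f : Finset ℕ → ℕ, (∀ x ∈ H, f x < n) ∧
      ∀ x ∈ H, ∀ y ∈ H, x ≠ y → f x = f y → 2 ≤ (x ∩ y).card := by
  classical
  by_cases hstar : ∀ x ∈ H, 0 ∈ x
  · -- a star
    have hA : ∀ x : Finset ℕ, ∃ e : ℕ, e < n ∧ (x ∈ H → e = 0 → x = {0}) ∧
        (x ∈ H → e ≠ 0 → e ∈ x) := by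
      intro x
      by_cases hx : x ∈ H
      · by_cases hx0 : x = {0}
        · exact ⟨0, by omega, fun _ _ => hx0, fun _ h => absurd rfl h⟩
        · have : (x.erase 0).Nonempty := by
            rw [nonempty_iff_ne_empty]
            intro h
            apply hx0
            rw [erase_eq_empty_iff] at h
            rcases h with h | h
            · have := hstar x hx
              rw [h] at this
              exact absurd this (notMem_empty _)
            · exact h
          obtain ⟨e, he⟩ := this
          have h1 := mem_erase.1 he
          exact ⟨e, mem_range.1 (hH.sub x hx h1.2), fun _ h => absurd h h1.1, fun _ _ => h1.2⟩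
      · exact ⟨0, by omega, fun h => absurd h hx, fun h => absurd h hx⟩
    choose e he1 he2 he3 using hA
    refine ⟨e, fun x _ => he1 x, ?_⟩
    intro x hx y hy hxy hf
    by_cases h0 : e x = 0
    · exact absurd ((he2 x hx h0).trans (he2 y hy (hf ▸ h0)).symm) hxy
    · exact two_le (Ne.symm h0) (hstar x hx) (hstar y hy) (he3 x hx h0)
        (hf ▸ he3 y hy (hf ▸ h0))
  · push Not at hstar
    obtain ⟨F0, hF0, hmin⟩ := exists_min_image (H.filter (fun x => 0 ∉ x)) card (by
      obtain ⟨x, hx, hx0⟩ := hstar
      exact ⟨x, mem_filter.2 ⟨hx, hx0⟩⟩)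
    obtain ⟨hF0H, h0F0⟩ := mem_filter.1 hF0
    have hmin' : ∀ y ∈ H, 0 ∉ y → F0.card ≤ y.card :=
      fun y hy h0 => hmin y (mem_filter.2 ⟨hy, h0⟩)
    have hIco : ∀ y ∈ H, 0 ∉ y → y ⊆ Ico 1 n := by
      intro y hy h0 k hk
      have h1 := mem_range.1 (hH.sub y hy hk)
      have h2 : k ≠ 0 := fun h => h0 (h ▸ hk)
      exact mem_Ico.2 ⟨by omega, h1⟩
    have hm : F0.card ≤ n - 1 := by
      have := card_le_card (hIco F0 hF0H h0F0)
      rwa [Nat.card_Ico] at this
    have hA : ∀ x : Finset ℕ, ∃ e : ℕ, x ∈ H → e ∈ x ∧ e ∈ F0 := by
      intro x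
      by_cases hx : x ∈ H
      · obtain ⟨e, h1, h2⟩ := not_disjoint_iff.1 (hH.int x hx F0 hF0H)
        exact ⟨e, fun _ => ⟨h1, h2⟩⟩
      · exact ⟨0, fun h => absurd h hx⟩
    choose e he using hA
    have hC : ∀ x : Finset ℕ, ∃ c : ℕ, x ∈ H → 0 ∉ x → 1 ≤ c ∧ 2 * c < n ∧ 2 * c ∈ x ∧
        c ≤ (x ∩ range (2 * c)).card := by
      intro x
      by_cases hx : x ∈ H ∧ 0 ∉ x
      · obtain ⟨c, h1, h2, h3⟩ := pivot hH hx.1
        refine ⟨c, fun _ _ => ⟨?_, h1, h2, h3⟩⟩
        by_contra hc
        have : c = 0 := by omega
        rw [this] at h2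
        exact hx.2 h2
      · exact ⟨0, fun h h' => absurd ⟨h, h'⟩ hx⟩
    choose c hc using hC
    have hrank : ∀ a ∈ F0, ∀ b ∈ F0, a < b → (F0 ∩ range a).card < (F0 ∩ range b).card := by
      intro a ha b hb hab
      apply card_lt_card
      rw [ssubset_iff_of_subset
        (inter_subset_inter_left (range_subset_range.2 (by omega)))]
      exact ⟨a, mem_inter.2 ⟨ha, mem_range.2 hab⟩, fun h => by
        have := mem_range.1 (mem_inter.1 h).2
        omega⟩
    have hrank2 : ∀ a ∈ F0, (F0 ∩ range a).card < F0.card := by
      intro a ha
      apply card_lt_card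
      rw [ssubset_iff_of_subset inter_subset_left]
      exact ⟨a, ha, fun h => by
        have := mem_range.1 (mem_inter.1 h).2
        omega⟩
    refine ⟨fun x => if 0 ∈ x then (F0 ∩ range (e x)).card else
      if n < 2 * F0.card then F0.card else F0.card + c x - 1, ?_, ?_⟩
    · intro x hx
      by_cases h0 : 0 ∈ x
      · simp only [h0, if_true]
        have := hrank2 _ (he x hx).2
        omega
      · simp only [h0, if_false]
        have h1 := hc x hx h0
        split_ifs
        · omega
        · omega
    · intro x hx y hy hxy hf
      by_cases h0 : 0 ∈ x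
      · by_cases g0 : 0 ∈ y
        · simp only [h0, g0, if_true] at hf
          have hee : e x = e y := by
            rcases Nat.lt_trichotomy (e x) (e y) with h | h | h
            · have := hrank _ (he x hx).2 _ (he y hy).2 h
              omega
            · exact h
            · have := hrank _ (he y hy).2 _ (he x hx).2 h
              omega
          have hne : (0 : ℕ) ≠ e x := fun h => h0F0 (h ▸ (he x hx).2)
          exact two_le hne h0 g0 (he x hx).1 (hee ▸ (he y hy).1)
        · exfalso
          simp only [h0, g0, if_true, if_false] at hf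
          have h1 := hrank2 _ (he x hx).2
          have h2 := hc y hy g0
          split_ifs at hf
          · omega
          · omega
      · by_cases g0 : 0 ∈ y
        · exfalso
          simp only [h0, g0, if_true, if_false] at hf
          have h1 := hrank2 _ (he y hy).2
          have h2 := hc x hx h0
          split_ifs at hf
          · omega
          · omega
        · simp only [h0, g0, if_false] at hf
          by_cases hbig : n < 2 * F0.card
          · have h1 := hmin' x hx h0
            have h2 := hmin' y hy g0
            have h3 := card_union_add_card_inter x y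
            have h4 : (x ∪ y).card ≤ n - 1 := by
              have := card_le_card (union_subset (hIco x hx h0) (hIco y hy g0))
              rwa [Nat.card_Ico] at this
            omega
          · rw [if_neg hbig, if_neg hbig] at hf
            have h1 := hc x hx h0
            have h2 := hc y hy g0
            have hcc : c x = c y := by omega
            rw [← hcc] at h2
            have h3 : ¬ Disjoint (x ∩ range (2 * c x)) (y ∩ range (2 * c x)) := by
              intro hd
              have h5 := card_union_of_disjoint hd
              have h6 : (x ∩ range (2 * c x)) ∪ (y ∩ range (2 * c x)) ⊆ Ico 1 (2 * c x) := by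
                intro k hk
                rcases mem_union.1 hk with hk | hk
                · have h7 := mem_inter.1 hk
                  have h8 := mem_range.1 h7.2
                  have h9 : k ≠ 0 := fun h => h0 (h ▸ h7.1)
                  exact mem_Ico.2 ⟨by omega, h8⟩
                · have h7 := mem_inter.1 hk
                  have h8 := mem_range.1 h7.2
                  have h9 : k ≠ 0 := fun h => g0 (h ▸ h7.1)
                  exact mem_Ico.2 ⟨by omega, h8⟩
              have h7 := card_le_card h6
              rw [Nat.card_Ico] at h7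
              omega
            obtain ⟨k, hk1, hk2⟩ := not_disjoint_iff.1 h3
            have hk3 := mem_range.1 (mem_inter.1 hk1).2
            exact two_le (a := k) (b := 2 * c x) (by omega) (mem_inter.1 hk1).1
              (mem_inter.1 hk2).1 h1.2.2.1 h2.2.2.1

end Pool.Agent.W568.KK
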